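import Pool.Agent.V11251.HG.Henson

set_option autoImplicit false
set_option linter.unusedVariables false
set_option linter.unusedSectionVars false

namespace Pool.Agent.Results.MP_ac8c78_lc.NotSunflowerable

open Pool.Agent.V11251 Pool.Agent.V11251.HG

/-- `G` is the Henson graph `H_n`: the countable ultrahomogeneous graph whose finite induced
subgraphs are exactly the finite `K_n`-free graphs. -/
structure IsHenson {V : Type} (n : ℕ) (G : SimpleGraph V) : Prop where
  countable : Countable V
  age : ∀ (m : ℕ) (H : SimpleGraph (Fin m)), Nonempty (H ↪g G) ↔ H.CliqueFree n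
  homogeneous : ∀ S : Set V, S.Finite → ∀ f : G.induce S ↪g G,
    ∃ φ : G ≃g G, ∀ s : S, φ s = f s

/-- A family of finite sets is a sunflower if any two different members have the same
intersection `r`. -/
def IsSunflower {X : Type} (S : Set (Finset X)) : Prop :=
  ∃ r : Set X, ∀ p ∈ S, ∀ q ∈ S, p ≠ q → (p : Set X) ∩ (q : Set X) = r

/-- In every graph isomorphic to `G` whose vertices are sets with `k` elements there is a set of
vertices which is a sunflower and induces a copy of `G`. -/
def SunflowerableAt {V : Type} (G : SimpleGraph V) (k : ℕ) : Prop :=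
  ∀ (X : Type) (Y : Set (Finset X)) (H : SimpleGraph Y), (∀ p ∈ Y, p.card = k) →
    Nonempty (H ≃g G) → ∃ Z : Set Y, IsSunflower {p : Finset X | ∃ z ∈ Z, (z : Finset X) = p} ∧
      Nonempty (H.induce Z ≃g G)

/-- For every `n ≥ 3` the Henson graph exists and is not sunflowerable, not even for vertices which
are sets with two elements. -/
theorem result (n : ℕ) (hn : 3 ≤ n) :
    (∃ G : SimpleGraph ℕ, IsHenson n G) ∧
    ∀ (V : Type) (G : SimpleGraph V), IsHenson n G → ¬ SunflowerableAt G 2 := by
  classical
  constructor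
  · obtain ⟨t, ht⟩ := exists_task
    have hE := ep t n ht
    have hF := cliqueFree t n hn
    refine ⟨graph t n, inferInstance, fun m H => ⟨?_, fun h => age h hE⟩,
      fun S hS f => homogeneous hF hE S hS f⟩
    rintro ⟨f⟩
    exact hF.comap ⟨f.toCopy⟩
  · intro V G hG hsun
    haveI := hG.countable
    obtain ⟨ν, hν⟩ := Countable.exists_injective_nat V
    -- the graph is `K_n`-free
    have hfree : G.CliqueFree n := by
      intro s hs
      let e : Fin s.card ≃ s := (Finset.equivFin s).symm
      let H : SimpleGraph (Fin s.card) := G.comap (fun i => (e i : V))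
      have hemb : Nonempty (H ↪g G) :=
        ⟨⟨⟨fun i => (e i : V), fun i j h => e.injective (Subtype.ext h)⟩, Iff.rfl⟩⟩
      have hfr := (hG.age _ H).1 hemb
      apply hfr (Finset.univ)
      rw [SimpleGraph.isNClique_iff]
      refine ⟨?_, by rw [Finset.card_univ, Fintype.card_fin, hs.card_eq]⟩
      intro i _ j _ hij
      exact hs.isClique (e i).2 (e j).2 (fun h => hij (e.injective (Subtype.ext h)))
    -- every vertex has infinitely many neighbours
    have hdeg : ∀ (v : V) (m : ℕ), ∃ s : Finset V, s.card = m ∧ ∀ w ∈ s, G.Adj v w := by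
      intro v m
      -- the star with `m` leaves
      let H : SimpleGraph (Fin (m + 1)) :=
        { Adj := fun i j => (i = 0 ∧ j ≠ 0) ∨ (j = 0 ∧ i ≠ 0)
          symm := ⟨fun i j h => h.symm⟩
          loopless := ⟨fun i h => by tauto⟩ }
      have hH : H.CliqueFree n := by
        intro s hs
        have h3 : 2 < s.card := by rw [hs.card_eq]; omega
        obtain ⟨a, ha, b, hb, c, hc, hab, hac, hbc⟩ := Finset.two_lt_card.1 h3
        have h1 := hs.isClique ha hb hab
        have h2 := hs.isClique ha hc hac
        have h4 := hs.isClique hb hc hbc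
        change (a = 0 ∧ b ≠ 0) ∨ (b = 0 ∧ a ≠ 0) at h1
        change (a = 0 ∧ c ≠ 0) ∨ (c = 0 ∧ a ≠ 0) at h2
        change (b = 0 ∧ c ≠ 0) ∨ (c = 0 ∧ b ≠ 0) at h4
        tauto
      obtain ⟨f⟩ := (hG.age _ H).2 hH
      -- move the centre to `v`
      let g : G.induce {f 0} ↪g G := ⟨⟨fun _ => v, fun a b _ => Subsingleton.elim _ _⟩,
        fun {a b} => by
          have : a = b := Subsingleton.elim _ _
          subst this
          simp⟩
      obtain ⟨φ, hφ⟩ := hG.homogeneous {f 0} (Set.finite_singleton _) g
      have hφ0 : φ (f 0) = v := hφ ⟨f 0, rfl⟩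
      refine ⟨(Finset.univ.filter (fun i : Fin (m + 1) => i ≠ 0)).image (fun i => φ (f i)), ?_, ?_⟩
      · have hinj2 : Function.Injective (fun i => φ (f i)) := φ.injective.comp f.injective
        rw [Finset.card_image_of_injective _ hinj2]
        rw [Finset.filter_ne' Finset.univ (0 : Fin (m + 1))]
        simp
      · intro w hw
        obtain ⟨i, hi, rfl⟩ := Finset.mem_image.1 hw
        rw [← hφ0, φ.map_adj_iff, f.map_adj_iff]
        exact Or.inl ⟨rfl, (Finset.mem_filter.1 hi).2⟩
    have hnb : ∀ v, ∃ u, G.Adj v u := by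
      intro v
      obtain ⟨s, hs, hsv⟩ := hdeg v 1
      obtain ⟨u, hu⟩ := Finset.card_eq_one.1 hs
      exact ⟨u, hsv u (by rw [hu]; simp)⟩
    -- the least neighbour
    have hg : ∀ v, ∃ u, G.Adj v u ∧ ∀ w, G.Adj v w → ν u ≤ ν w := by
      intro v
      obtain ⟨u, hu, hmin⟩ := (measure ν).wf.has_min {u | G.Adj v u} (hnb v)
      exact ⟨u, hu, fun w hw => not_lt.1 (hmin w hw)⟩
    choose g hg1 hg2 using hg
    let f : V → Finset (V ⊕ V) := fun v => {Sum.inl (g v), Sum.inr v}
    have hinr : ∀ m m', (Sum.inr m' : V ⊕ V) ∈ f m ↔ m' = m := by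
      intro m m'
      simp [f]
    have hinl : ∀ m x, (Sum.inl x : V ⊕ V) ∈ f m ↔ x = g m := by
      intro m x
      simp [f]
    have hf : Function.Injective f := by
      intro m m' hmm
      have h1 : (Sum.inr m : V ⊕ V) ∈ f m' := by rw [← hmm]; exact (hinr m m).2 rfl
      exact (hinr m' m).1 h1
    let e : V ≃ Set.range f := Equiv.ofInjective f hf
    let H : SimpleGraph (Set.range f) := G.comap e.symm
    have hHG : H ≃g G := ⟨e.symm, Iff.rfl⟩
    obtain ⟨Z, ⟨r, hr⟩, ⟨φ⟩⟩ := hsun (V ⊕ V) (Set.range f) H (by
      rintro _ ⟨m, rfl⟩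
      exact Finset.card_pair (by simp)) ⟨hHG⟩
    -- the vertices of the copy
    let j : V → V := fun v => e.symm (φ.symm v)
    have hj : Function.Injective j := fun a b h =>
      φ.symm.injective (Subtype.ext (e.symm.injective h))
    have hadj : ∀ a b, G.Adj (j a) (j b) ↔ G.Adj a b := fun a b => φ.symm.map_adj_iff
    have hmem : ∀ v, f (j v) ∈ {p : Finset (V ⊕ V) | ∃ z ∈ Z, (z : Finset (V ⊕ V)) = p} := by
      intro v
      refine ⟨(φ.symm v : Z), (φ.symm v).2, ?_⟩
      have h1 : e (j v) = (φ.symm v : Z) := e.apply_symm_apply _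
      rw [← h1]
      rfl
    by_cases hinj : Function.Injective (fun v => g (j v))
    · -- infinitely many neighbours of one vertex have different least neighbours
      obtain ⟨v₀⟩ : Nonempty V := by
        obtain ⟨F⟩ := (hG.age 1 ⊥).2 (by
          intro s hs
          have h1 := Finset.card_le_univ s
          rw [hs.card_eq, Fintype.card_fin] at h1
          omega)
        exact ⟨F 0⟩
      obtain ⟨s, hs, hsv⟩ := hdeg v₀ (ν (j v₀) + 2)
      have h1 : s.card ≤ (Finset.range (ν (j v₀) + 1)).card := by
        refine Finset.card_le_card_of_injOn (fun v => ν (g (j v))) ?_ ?_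
        · intro v hv
          rw [Finset.mem_coe, Finset.mem_range, Nat.lt_succ_iff]
          exact hg2 (j v) (j v₀) ((hadj v v₀).2 (hsv v hv).symm)
        · intro v _ w _ h
          exact hinj (hν h)
      rw [hs, Finset.card_range] at h1
      omega
    · -- all vertices of the copy have a common neighbour
      unfold Function.Injective at hinj
      push Not at hinj
      obtain ⟨m₁, m₂, hgg, hne⟩ := hinj
      have hfne : ∀ m m', m ≠ m' → f (j m) ≠ f (j m') := fun m m' hmm hff => hmm (hj (hf hff))
      have h1 := hr _ (hmem m₁) _ (hmem m₂) (hfne _ _ hne)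
      have h2 : (Sum.inl (g (j m₁)) : V ⊕ V) ∈ r := by
        rw [← h1]
        exact ⟨(hinl _ _).2 rfl, (hinl _ _).2 hgg⟩
      have hconst : ∀ m, g (j m) = g (j m₁) := by
        intro m
        by_cases hm : m = m₁
        · rw [hm]
        · have h3 := hr _ (hmem m) _ (hmem m₁) (hfne _ _ hm)
          rw [← h3] at h2
          exact ((hinl _ _).1 h2.1).symm
      -- a clique with `n - 1` vertices in the copy
      obtain ⟨F⟩ := (hG.age (n - 1) ⊤).2 (by
        intro s hs
        have h1 := Finset.card_le_univ s
        rw [hs.card_eq, Fintype.card_fin] at h1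
        omega)
      let K : Finset V := Finset.univ.image (fun i => j (F i))
      have hu : ∀ m, G.Adj (g (j m₁)) (j m) := by
        intro m
        rw [← hconst m]
        exact (hg1 (j m)).symm
      have huK : g (j m₁) ∉ K := by
        intro h
        obtain ⟨i, _, hi⟩ := Finset.mem_image.1 h
        have := hu (F i)
        rw [← hi] at this
        exact G.loopless.irrefl _ this
      have hinj2 : Function.Injective (fun i => j (F i)) := hj.comp F.injective
      have hKc : K.card = n - 1 := by
        rw [Finset.card_image_of_injective _ hinj2, Finset.card_univ, Fintype.card_fin]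
      apply hfree (insert (g (j m₁)) K)
      rw [SimpleGraph.isNClique_iff, Finset.card_insert_of_notMem huK, hKc]
      refine ⟨?_, by omega⟩
      rw [Finset.coe_insert, SimpleGraph.isClique_insert]
      refine ⟨?_, ?_⟩
      · intro x hx y hy hxy
        obtain ⟨i, _, rfl⟩ := Finset.mem_image.1 hx
        obtain ⟨i', _, rfl⟩ := Finset.mem_image.1 hy
        rw [hadj, F.map_adj_iff, SimpleGraph.top_adj]
        rintro rfl
        exact hxy rfl
      · intro x hx _
        obtain ⟨i, _, rfl⟩ := Finset.mem_image.1 hx
        exact hu _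

end Pool.Agent.Results.MP_ac8c78_lc.NotSunflowerable
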